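import Pool.Agent.Helper61.QT.GoalsP

/-!
# Packet QT+-SPL: the splitting in the unsheared coordinates
-/

set_option autoImplicit false

open Set

namespace Pool.Agent.Helper14.QT

open Pool.Agent.Helper61 Pool.Agent.Helper61.QG Pool.Agent.Helper61.QT
open Pool.Agent.Helper61.QS (V En rk R4)
open Pool.Agent.Helper61.QM (W2 Mab pol2)

/-- the inverse shear of `R4` -/
def ush (φ : ℝ × ℝ → ℝ × ℝ) (x : R4) : R4 :=
  (x.1, x.2.1, x.2.2.1 - (φ (x.1, x.2.1)).1, x.2.2.2 - (φ (x.1, x.2.1)).2)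

theorem continuous_ush {φ : ℝ × ℝ → ℝ × ℝ} (hφ : Continuous φ) : Continuous (ush φ) := by
  unfold ush
  fun_prop

theorem shr_ush (φ : ℝ × ℝ → ℝ × ℝ) (x : R4) : shr φ (ush φ x) = x := by
  obtain ⟨r, s, α, β⟩ := x
  simp [shr, ush]

theorem ush_mem {φ : ℝ × ℝ → ℝ × ℝ} {x : R4} (hx : x ∈ Box2) : ush φ x ∈ Box2 := hx

theorem compat_ush {a b : ℤ} {Y : Type} {f : R4 → Y} (φ : ℝ × ℝ → ℝ × ℝ)
    (hf : Compat2 a b f) : Compat2 a b (fun x => f (ush φ x)) := by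
  have hpi : (0 : ℝ) ≤ Real.pi / 2 := by positivity
  refine ⟨?_, ?_, ?_, ?_, ?_, ?_⟩
  · intro r s α β h
    have h1 := hf.perα r s (α - (φ (r, s)).1) (β - (φ (r, s)).2) h
    show f (r, s, α + 2 * Real.pi - (φ (r, s)).1, β - (φ (r, s)).2) = _
    rw [show α + 2 * Real.pi - (φ (r, s)).1 = α - (φ (r, s)).1 + 2 * Real.pi by ring, h1]
    rfl
  · intro r s α β h
    have h1 := hf.perβ r s (α - (φ (r, s)).1) (β - (φ (r, s)).2) h
    show f (r, s, α - (φ (r, s)).1, β + 2 * Real.pi - (φ (r, s)).2) = _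
    rw [show β + 2 * Real.pi - (φ (r, s)).2 = β - (φ (r, s)).2 + 2 * Real.pi by ring, h1]
    rfl
  · intro s α β h0 h1
    show f (0, s, α - (φ (0, s)).1, β - (φ (0, s)).2) = f (0, s, 0 - (φ (0, s)).1, β - (φ (0, s)).2)
    rw [hf.r0 s _ _ h0 h1, hf.r0 s (0 - (φ (0, s)).1) _ h0 h1]
  · intro s α β h0 h1
    show f (Real.pi / 2, s, α - (φ (Real.pi / 2, s)).1, β - (φ (Real.pi / 2, s)).2) =
      f (Real.pi / 2, s, 0 - (φ (Real.pi / 2, s)).1, β + a * α - (φ (Real.pi / 2, s)).2)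
    rw [hf.r1 s _ _ h0 h1, hf.r1 s (0 - (φ (Real.pi / 2, s)).1) _ h0 h1]
    congr 4
    ring
  · intro r α β h0 h1
    show f (r, 0, α - (φ (r, 0)).1, β - (φ (r, 0)).2) = f (r, 0, α - (φ (r, 0)).1, 0 - (φ (r, 0)).2)
    rw [hf.s0 r _ _ h0 h1, hf.s0 r _ (0 - (φ (r, 0)).2) h0 h1]
  · intro r α β h0 h1
    show f (r, Real.pi / 2, α - (φ (r, Real.pi / 2)).1, β - (φ (r, Real.pi / 2)).2) =
      f (r, Real.pi / 2, α + b * β - (φ (r, Real.pi / 2)).1, 0 - (φ (r, Real.pi / 2)).2)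
    rw [hf.s1 r _ _ h0 h1, hf.s1 r _ (0 - (φ (r, Real.pi / 2)).2) h0 h1]
    congr 4
    ring

/-- **P-SPL** -/
theorem goalSPL : G_SPL := by
  intro a b n e φ hφ h
  obtain ⟨N, f, h1, h2, h3, h4⟩ := h
  refine ⟨N, fun j x => f j (ush φ x), ?_, ?_, ?_, ?_⟩
  · intro j
    refine ⟨?_, compat_ush φ (h1 j).2⟩
    exact (h1 j).1.comp (continuous_ush hφ).continuousOn (fun x hx => ush_mem hx)
  · intro j x hx
    exact h2 j _ (ush_mem hx)
  · intro i j hij x hx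
    exact h3 i j hij _ (ush_mem hx)
  · intro x hx
    have h5 := h4 (ush φ x) (ush_mem hx)
    rw [h5]
    show e (pol2 (shr φ (ush φ x))) = e (pol2 x)
    rw [shr_ush]

end Pool.Agent.Helper14.QT
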