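import Pool.Agent.Helper61.QT.GoalsG

/-!
# Project QT (MP_0ebdb3_gt), packet QT-TOR: torus-invariant metrics are flat on the planes `∂r, ∂s`
-/

set_option autoImplicit false

namespace Pool.Agent.Helper14.QT

open Pool.Agent.Helper61 Pool.Agent.Helper61.QG Pool.Agent.Helper61.QT
open Pool.Agent.Helper61.QS (V En rk R4 IsCurv SecNN Gam dd)
open Pool.Agent.Helper61.QM (Model W2 Mab pol2 act2 o1 o2 rot IsRe IsIm)

theorem d1_cd {E : ℝ × ℝ → ℝ} {m n : WithTop ℕ∞} (hE : ContDiff ℝ n E) (h : m + 1 ≤ n) :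
    ContDiff ℝ m (d1 E) := by
  unfold d1
  exact (hE.fderiv_right h).clm_apply contDiff_const

theorem d2_cd {E : ℝ × ℝ → ℝ} {m n : WithTop ℕ∞} (hE : ContDiff ℝ n E) (h : m + 1 ≤ n) :
    ContDiff ℝ m (d2 E) := by
  unfold d2
  exact (hE.fderiv_right h).clm_apply contDiff_const

theorem kap2_cont {E F G : ℝ × ℝ → ℝ} (hE : ContDiff ℝ 2 E) (hF : ContDiff ℝ 2 F)
    (hG : ContDiff ℝ 2 G) (hpos : ∀ z, 0 < E z ∧ 0 < E z * G z - F z ^ 2) :
    Continuous (kap2 E F G) := by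
  have h21 : (1 : WithTop ℕ∞) + 1 ≤ 2 := by norm_num
  have h10 : (0 : WithTop ℕ∞) + 1 ≤ 1 := by norm_num
  have e0 : Continuous E := hE.continuous
  have f0 : Continuous F := hF.continuous
  have g0 : Continuous G := hG.continuous
  have e1 := (d1_cd hE h21).continuous
  have e2 := (d2_cd hE h21).continuous
  have f1 := (d1_cd hF h21).continuous
  have f2 := (d2_cd hF h21).continuous
  have g1 := (d1_cd hG h21).continuous
  have g2 := (d2_cd hG h21).continuous
  have e22 := (d2_cd (d2_cd hE h21) h10).continuous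
  have g11 := (d1_cd (d1_cd hG h21) h10).continuous
  have f12 := (d1_cd (d2_cd hF h21) h10).continuous
  have hne : ∀ z, E z * G z - F z ^ 2 ≠ 0 := fun z => (hpos z).2.ne'
  unfold kap2
  fun_prop (disch := exact hne _)

/-- **G-TOR** from `G_PL2`, `G_GBX`, `G_T1`, `G_T3` -/
theorem goalTOR (hPL : G_PL2) (hBX : G_GBX) (hT1 : G_T1) (hT3 : G_T3) : G_TOR := by
  intro a b gM hab hB hT hK
  obtain ⟨hpol, -⟩ := hPL a b hab
  obtain ⟨-, -, -, hex⟩ := hBX W2 (Mab a b) pol2 Reg2 gM hpol hB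
  obtain ⟨E, F, G, hE, hF, hG, hp1, hp2, hpos, hcurv⟩ := hT1 a b gM hab hB hT
  have hk : Continuous (kap2 E F G) := kap2_cont hE hF hG hpos
  have hc : Continuous fun x : R4 => kap2 E F G (x.1, x.2.1) :=
    hk.comp (continuous_fst.prodMk (continuous_fst.comp continuous_snd))
  have hcl : IsClosed {x : R4 | 0 ≤ kap2 E F G (x.1, x.2.1)} := isClosed_le continuous_const hc
  have hsub : Reg2 ⊆ {x : R4 | 0 ≤ kap2 E F G (x.1, x.2.1)} := by
    intro x hx
    obtain ⟨K, hK'⟩ := hex x hx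
    have h := hK x hx K hK'
    rw [hcurv x hx K hK'] at h
    exact h
  have hall : ∀ x : R4, 0 ≤ kap2 E F G (x.1, x.2.1) := by
    intro x
    have h := closure_minimal hsub hcl (hpol.dense x)
    exact h
  have h0 := hT3 E F G hE hF hG hpos hp1 hp2 fun z => hall (z.1, z.2, 0, 0)
  intro x hx
  obtain ⟨K, hK'⟩ := hex x hx
  have h := hcurv x hx K hK'
  rw [h0] at h
  rw [h] at hK'
  exact hK'

end Pool.Agent.Helper14.QT
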